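import Mathlib

/-!
# Irreducible subquotients
-/

set_option autoImplicit false

universe u

namespace Q54.KD

section

variable {F : Type u} [Field F] {X : Type u} [AddCommGroup X] [Module F X]

theorem exists_simple {B : Type u} [Ring B] [Algebra F B] [Module B X] [IsScalarTower F B X]
    (x : X) (hx0 : x ≠ 0) :
    ∃ (U : Submodule B X) (M : Type u) (_ : AddCommGroup M) (_ : Module F M) (_ : Module B M)
      (_ : IsScalarTower F B M) (π : U →ₗ[B] M), (∀ y ∈ U, ∃ b : B, b • x = y) ∧
      Function.Surjective π ∧ IsSimpleModule B M := by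
  let Np : Submodule B X := Submodule.span B {x}
  have hxN : x ∈ Np := Submodule.subset_span rfl
  have hfin : Module.Finite B Np :=
    Module.Finite.iff_fg.2 ⟨{x}, by rw [Finset.coe_singleton]⟩
  have hnt : Nontrivial Np := ⟨⟨⟨x, hxN⟩, 0, fun h => hx0 (congrArg Subtype.val h)⟩⟩
  obtain ⟨m, hm⟩ := IsCoatomic.exists_coatom (Submodule B Np)
  have hs : IsSimpleModule B (Np ⧸ m) := isSimpleModule_iff_isCoatom.2 hm
  exact ⟨Np, Np ⧸ m, inferInstance, inferInstance, inferInstance, inferInstance, m.mkQ,
    fun y hy => Submodule.mem_span_singleton.1 hy, m.mkQ_surjective, hs⟩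

theorem exists_subquotient {ι : Type u} (T : ι → Module.End F X) (N : Submodule F X)
    (hN : ∀ i, ∀ x ∈ N, T i x ∈ N) (x : X) (hx : x ∈ N) (hx0 : x ≠ 0) :
    ∃ (U : Submodule F X) (hU : ∀ i, ∀ x ∈ U, T i x ∈ U) (M : Type u) (_ : AddCommGroup M)
      (_ : Module F M) (T' : ι → Module.End F M) (π : U →ₗ[F] M), U ≤ N ∧ Function.Surjective π ∧
      (∀ i (u : U), π ⟨T i u, hU i u u.2⟩ = T' i (π u)) ∧ (∃ m : M, m ≠ 0) ∧
      ∀ W : Submodule F M, (∀ i, ∀ m ∈ W, T' i m ∈ W) → W = ⊥ ∨ W = ⊤ := by
  obtain ⟨U, M, i1, i2, i3, i4, π, hUx, hπ, hs⟩ :=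
    exists_simple (F := F) (B := Algebra.adjoin F (Set.range T)) x hx0
  have hmem : ∀ i, T i ∈ Algebra.adjoin F (Set.range T) := fun i => Algebra.subset_adjoin ⟨i, rfl⟩
  have hBN : ∀ S ∈ Algebra.adjoin F (Set.range T), ∀ x ∈ N, S x ∈ N := by
    intro S hS
    induction hS using Algebra.adjoin_induction with
    | mem S hS =>
      obtain ⟨i, rfl⟩ := hS
      exact hN i
    | algebraMap c =>
      intro m hm
      exact Submodule.smul_mem _ c hm
    | add S T _ _ hS hT =>
      intro m hm
      exact add_mem (hS m hm) (hT m hm)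
    | mul S T _ _ hS hT =>
      intro m hm
      exact hS _ (hT m hm)
  refine ⟨U.restrictScalars F,
    fun i y hy => U.smul_mem (⟨T i, hmem i⟩ : Algebra.adjoin F (Set.range T)) hy, M, i1,
    i2, fun i => Algebra.lsmul F F M (⟨T i, hmem i⟩ : Algebra.adjoin F (Set.range T)),
    π.restrictScalars F, ?_, ?_, ?_, ?_, ?_⟩
  · intro y hy
    obtain ⟨S, rfl⟩ := hUx y hy
    exact hBN S.1 S.2 x hx
  · exact hπ
  · intro i u
    exact π.map_smul (⟨T i, hmem i⟩ : Algebra.adjoin F (Set.range T)) u
  · have := hs.nontrivial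
    exact exists_ne 0
  · intro W hW
    have hW' : ∀ S (hS : S ∈ Algebra.adjoin F (Set.range T)), ∀ v ∈ W,
        (⟨S, hS⟩ : Algebra.adjoin F (Set.range T)) • v ∈ W := by
      intro S hS
      induction hS using Algebra.adjoin_induction with
      | mem S hS =>
        intro v hv
        obtain ⟨i, rfl⟩ := hS
        exact hW i v hv
      | algebraMap c =>
        intro v hv
        have h := W.smul_mem c hv
        rw [← algebraMap_smul (Algebra.adjoin F (Set.range T)) c v] at h
        exact h
      | add S T hS hT ihS ihT =>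
        intro v hv
        have h := add_mem (ihS v hv) (ihT v hv)
        rw [← add_smul] at h
        exact h
      | mul S T hS hT ihS ihT =>
        intro v hv
        have h := ihS _ (ihT v hv)
        rw [← mul_smul] at h
        exact h
    let W' : Submodule (Algebra.adjoin F (Set.range T)) M :=
      { carrier := W
        add_mem' := W.add_mem
        zero_mem' := W.zero_mem
        smul_mem' := fun T v hv => hW' T.1 T.2 v hv }
    rcases eq_bot_or_eq_top W' with h | h
    · left
      rw [eq_bot_iff]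
      intro v hv
      have h2 : v ∈ W' := hv
      rw [h] at h2
      exact h2
    · right
      rw [eq_top_iff]
      intro v _
      have h2 : v ∈ W' := by
        rw [h]
        exact Submodule.mem_top
      exact h2

end

end Q54.KD
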