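import Mathlib

/-!
# Kantor doubles and their Jordan supermodules

Let `F` be a field of characteristic not two. A superspace over `F` is a vector space `V` over `F`
with its parity automorphism `σ`, an involution of `V`: the even elements are those with `σ v = v` and
the odd elements those with `σ v = -v`. A subspace is graded if and only if it is stable under `σ`.
-/

set_option autoImplicit false

universe u

namespace Q54.KD

section

variable (F : Type u) [Field F] {V : Type u} [AddCommGroup V] [Module F V]

/-- `V` with the parity automorphism `σ` is a superspace. -/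
structure IsSuperspace (σ : V → V) : Prop where
  linear : IsLinearMap F σ
  involutive : ∀ v, σ (σ v) = v

omit F [Field F] [Module F V] in
/-- `v` is homogeneous and its parity is the class of `i` modulo two. -/
def Homog (σ : V → V) (i : ℕ) (v : V) : Prop := σ v = (-1 : ℤ) ^ i • v

/-- `V` with the product `m` is a Jordan superalgebra. The first identity is
`(-1)^(|a||c|) [L_(ab), L_c] + (-1)^(|b||a|) [L_(bc), L_a] + (-1)^(|c||b|) [L_(ca), L_b] = 0`,
applied to `d`, where `L_a` is the multiplication by `a` from the left and the brackets are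
supercommutators. The second identity is `[L_(aa), L_a] = 0` for even `a`; it follows from the first
one if the characteristic is not three. -/
structure IsJordanSuperalgebra (σ : V → V) (m : V → V → V) : Prop where
  superspace : IsSuperspace F σ
  bilinear : IsBilinearMap F m
  even : ∀ a b, σ (m a b) = m (σ a) (σ b)
  supercomm : ∀ i j a b, Homog σ i a → Homog σ j b → m a b = (-1 : ℤ) ^ (i * j) • m b a
  jordan : ∀ i j k l a b c d, Homog σ i a → Homog σ j b → Homog σ k c → Homog σ l d →
    (-1 : ℤ) ^ (i * k) • (m (m a b) (m c d) - (-1 : ℤ) ^ ((i + j) * k) • m c (m (m a b) d)) +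
    (-1 : ℤ) ^ (j * i) • (m (m b c) (m a d) - (-1 : ℤ) ^ ((j + k) * i) • m a (m (m b c) d)) +
    (-1 : ℤ) ^ (k * j) • (m (m c a) (m b d) - (-1 : ℤ) ^ ((k + i) * j) • m b (m (m c a) d)) = 0
  jordan_even : ∀ l a d, Homog σ 0 a → Homog σ l d → m (m a a) (m a d) = m a (m (m a a) d)

end

section

variable (F : Type u) [Field F] {A : Type u} [AddCommGroup A] [Module F A]

/-- `A` with the product `dot` and the bracket `br` is a dot-bracket superalgebra. -/
structure IsDotBracket (σ : A → A) (dot br : A → A → A) : Prop where
  superspace : IsSuperspace F σ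
  dot_bilinear : IsBilinearMap F dot
  br_bilinear : IsBilinearMap F br
  dot_even : ∀ a b, σ (dot a b) = dot (σ a) (σ b)
  br_even : ∀ a b, σ (br a b) = br (σ a) (σ b)
  assoc : ∀ a b c, dot (dot a b) c = dot a (dot b c)
  supercomm : ∀ i j a b, Homog σ i a → Homog σ j b → dot a b = (-1 : ℤ) ^ (i * j) • dot b a
  superanticomm : ∀ i j a b, Homog σ i a → Homog σ j b → br a b = -((-1 : ℤ) ^ (i * j) • br b a)

omit F [Field F] [Module F A] in
/-- The product of the Kantor double `Kan(A) = A ⊕ Ā`; the pair `(a, b)` is `a + b̄`. Since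
`σ b = (-1)^|b| b`, it is given by `a * b = a · b`, `a * b̄ = (a · b)‾`, `ā * b = (-1)^|b| (a · b)‾`,
`ā * b̄ = (-1)^|b| {a, b}`. -/
def kan (σ : A → A) (dot br : A → A → A) (u v : A × A) : A × A :=
  (dot u.1 v.1 + br u.2 (σ v.2), dot u.1 v.2 + dot u.2 (σ v.1))

omit F [Field F] [Module F A] in
/-- The parity automorphism of the Kantor double: the parity of `Ā` is shifted. -/
def kanσ (σ : A → A) (u : A × A) : A × A := (σ u.1, -σ u.2)

/-- The bracket is a Jordan bracket: the Kantor double is a Jordan superalgebra. -/
def IsJordanBracket (σ : A → A) (dot br : A → A → A) : Prop :=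
  IsJordanSuperalgebra F (kanσ σ) (kan σ dot br)

omit F [Field F] [Module F A] in
/-- `e` is an identity of the product `dot`. -/
def IsIdentity (dot : A → A → A) (e : A) : Prop := ∀ a, dot e a = a ∧ dot a e = a

/-- The dot-bracket superalgebra `A` is simple: `A` is not zero and the only ideals of `(A, ·)`
that are closed under bracketing with `A` are zero and `A`. -/
def IsSimple (dot br : A → A → A) : Prop :=
  (∃ a : A, a ≠ 0) ∧ ∀ I : Submodule F A,
    (∀ a ∈ I, ∀ b, dot a b ∈ I ∧ dot b a ∈ I ∧ br a b ∈ I ∧ br b a ∈ I) → I = ⊥ ∨ I = ⊤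

variable {V : Type u} [AddCommGroup V] [Module F V]

omit F [Field F] [Module F A] [AddCommGroup A] [Module F V] in
/-- The product of the split null extension `A ⊕ V`: on `A` it is the product `m`, the product of
`a ∈ A` and `v ∈ V` is `l a v`, the product of `v ∈ V` and `a ∈ A` is `r v a`, and `V V = 0`. -/
def nullMul (m : A → A → A) (l : A → V → V) (r : V → A → V) (u v : A × V) : A × V :=
  (m u.1 v.1, l u.1 v.2 + r u.2 v.1)

/-- The superspace `V` with the bilinear left action `l` and the bilinear right action `r` is a
Jordan supermodule over `(A, m)`: the split null extension is a Jordan superalgebra. -/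
def IsJordanSupermodule (σ : A → A) (m : A → A → A) (τ : V → V) (l : A → V → V)
    (r : V → A → V) : Prop :=
  IsBilinearMap F l ∧ IsBilinearMap F r ∧ IsJordanSuperalgebra F (Prod.map σ τ) (nullMul m l r)

/-- The supermodule `V` is irreducible: it is not zero and the only graded submodules are zero and
`V`. -/
def IsIrreducible (τ : V → V) (l : A → V → V) (r : V → A → V) : Prop :=
  (∃ v : V, v ≠ 0) ∧ ∀ U : Submodule F V,
    (∀ v ∈ U, τ v ∈ U ∧ ∀ a, l a v ∈ U ∧ r v a ∈ U) → U = ⊥ ∨ U = ⊤

/-- The superspace `V` with the bilinear actions `dl a v = a · v`, `dr v a = v · a`,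
`bl a v = {a, v}`, `br v a = {v, a}` is a dot-bracket supermodule with a Jordan bracket over `A`: the
split null extension is a dot-bracket superalgebra with a Jordan bracket. -/
def IsDotBracketSupermodule (σ : A → A) (dot brA : A → A → A) (τ : V → V) (dl : A → V → V)
    (dr : V → A → V) (bl : A → V → V) (br : V → A → V) : Prop :=
  (IsBilinearMap F dl ∧ IsBilinearMap F dr ∧ IsBilinearMap F bl ∧ IsBilinearMap F br) ∧
    IsDotBracket F (Prod.map σ τ) (nullMul dot dl dr) (nullMul brA bl br) ∧
    IsJordanBracket F (Prod.map σ τ) (nullMul dot dl dr) (nullMul brA bl br)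

omit F [Field F] [Module F A] [AddCommGroup A] [Module F V] in
/-- The left action of `Kan(A)` on `Kan(V) = V ⊕ V̄`, given by the same formulas as `kan`. -/
def kanLeft (τ : V → V) (dl bl : A → V → V) (u : A × A) (v : V × V) : V × V :=
  (dl u.1 v.1 + bl u.2 (τ v.2), dl u.1 v.2 + dl u.2 (τ v.1))

end

end Q54.KD
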