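import Mathlib

/-!
# The rational function field with its derivation and a translation
-/

set_option autoImplicit false

open Polynomial

universe u

namespace Q54.KD

section

variable (F : Type u) [Field F]

/-- rational functions -/
abbrev KX : Type u := FractionRing F[X]

/-- the variable -/
noncomputable def tX : KX F := algebraMap F[X] (KX F) X

/-- dual numbers -/
abbrev Du : Type u := TrivSqZeroExt (KX F) (KX F)

/-- a homomorphism to the dual numbers -/
noncomputable def phi : F[X] →ₐ[F] Du F :=
  aeval (TrivSqZeroExt.inl (tX F) + TrivSqZeroExt.inr 1 : Du F)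

theorem fst_phi (f : F[X]) : (phi F f).fst = algebraMap F[X] (KX F) f := by
  have h : (TrivSqZeroExt.fstHom F (KX F) (KX F)).comp (phi F) =
      IsScalarTower.toAlgHom F F[X] (KX F) := by
    apply Polynomial.algHom_ext
    rw [AlgHom.comp_apply, phi, aeval_X]
    change (TrivSqZeroExt.inl (tX F) + TrivSqZeroExt.inr 1 : Du F).fst = _
    rw [TrivSqZeroExt.fst_add, TrivSqZeroExt.fst_inl, TrivSqZeroExt.fst_inr, add_zero]
    rfl
  exact congrArg (fun g : F[X] →ₐ[F] KX F => g f) h

theorem phi_unit (y : nonZeroDivisors F[X]) : IsUnit (phi F y) := by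
  rw [TrivSqZeroExt.isUnit_iff_isUnit_fst, fst_phi]
  exact IsLocalization.map_units (KX F) y

/-- the homomorphism of the field to the dual numbers -/
noncomputable def Phi : KX F →ₐ[F] Du F := IsLocalization.liftAlgHom (phi_unit F)

theorem Phi_algebraMap (f : F[X]) : Phi F (algebraMap F[X] (KX F) f) = phi F f := by
  rw [Phi, IsLocalization.liftAlgHom_apply, IsLocalization.lift_eq]
  rfl

theorem fst_Phi (x : KX F) : (Phi F x).fst = x := by
  obtain ⟨⟨a, b⟩, h⟩ := IsLocalization.surj (nonZeroDivisors F[X]) x
  have hb : algebraMap F[X] (KX F) b ≠ 0 := (IsLocalization.map_units (KX F) b).ne_zero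
  have h2 := congrArg (fun y => (Phi F y).fst) h
  simp only [map_mul, TrivSqZeroExt.fst_mul, Phi_algebraMap, fst_phi] at h2
  rw [← h] at h2
  exact mul_right_cancel₀ hb h2

/-- the derivation -/
noncomputable def dX : Derivation F (KX F) (KX F) :=
  Derivation.mk' ((TrivSqZeroExt.sndHom (KX F) (KX F)).restrictScalars F ∘ₗ (Phi F).toLinearMap)
    (by
      intro a b
      change (Phi F (a * b)).snd = a • (Phi F b).snd + b • (Phi F a).snd
      rw [map_mul, TrivSqZeroExt.snd_mul, fst_Phi, fst_Phi, op_smul_eq_smul])

theorem dX_t : dX F (tX F) = 1 := by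
  change (Phi F (algebraMap F[X] (KX F) X)).snd = 1
  rw [Phi_algebraMap, phi, aeval_X, TrivSqZeroExt.snd_add, TrivSqZeroExt.snd_inl,
    TrivSqZeroExt.snd_inr, zero_add]

/-- the translation of polynomials -/
noncomputable def tau : F[X] →ₐ[F] KX F := aeval (tX F + 1)

theorem tau_inj : Function.Injective (tau F) := by
  have h : tau F = (IsScalarTower.toAlgHom F F[X] (KX F)).comp (aeval (X + C 1)) := by
    apply Polynomial.algHom_ext
    rw [tau, AlgHom.comp_apply, aeval_X, aeval_X, map_add, C_1, map_one]
    rfl
  rw [h]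
  intro a b hab
  have h2 := IsFractionRing.injective F[X] (KX F) hab
  apply taylor_injective (1 : F)
  rw [taylor_apply, taylor_apply]
  exact h2

/-- the translation -/
noncomputable def Tau : KX F →ₐ[F] KX F := IsFractionRing.liftAlgHom (tau_inj F)

theorem Tau_t : Tau F (tX F) = tX F + 1 := by
  rw [Tau, IsFractionRing.liftAlgHom_apply, tX, IsFractionRing.lift_algebraMap]
  change tau F X = _
  rw [tau, aeval_X]
  rfl

end

end Q54.KD
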