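import Pool.Agent.Q54.KD.Quot
import Pool.Agent.Q54.KD.Field

/-!
# The counterexample
-/

set_option autoImplicit false

open Polynomial

universe u

namespace Q54.KD

section

variable {F : Type u} [Field F] {A : Type u} [CommRing A] [Algebra F A] {D : Derivation F A A}

theorem dotBracket [NeZero (2 : F)] (D : Derivation F A A) :
    IsDotBracket F (fun a : A => a) (fun a b => a * b) (brD D) where
  superspace := ⟨⟨fun _ _ => rfl, fun _ _ => rfl⟩, fun _ => rfl⟩
  dot_bilinear := ⟨fun a b c => add_mul a b c, fun c a b => smul_mul_assoc c a b,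
    fun a b c => mul_add a b c, fun c a b => mul_smul_comm c a b⟩
  br_bilinear := brD_bilinear
  dot_even _ _ := rfl
  br_even _ _ := rfl
  assoc := mul_assoc
  supercomm i j a b ha hb := by
    rcases sign_or i with hi | hi
    · rw [pow_mul, hi, one_pow, one_smul, mul_comm]
    · rw [Homog, hi, neg_smul, one_smul] at ha
      have h : a = 0 := by
        apply two_torsion (F := F)
        rw [two_smul]
        nth_rewrite 1 [ha]
        rw [neg_add_cancel]
      rw [h, zero_mul, mul_zero, smul_zero]
  superanticomm i j a b ha hb := by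
    rcases sign_or i with hi | hi
    · rw [pow_mul, hi, one_pow, one_smul, brD, brD]
      ring
    · rw [Homog, hi, neg_smul, one_smul] at ha
      have h : a = 0 := by
        apply two_torsion (F := F)
        rw [two_smul]
        nth_rewrite 1 [ha]
        rw [neg_add_cancel]
      rw [h, brD_zero_left, brD_zero_right, smul_zero, neg_zero]

theorem simple_field {K : Type u} [Field K] [Algebra F K] (br : K → K → K) :
    IsSimple F (fun a b : K => a * b) br := by
  refine ⟨⟨1, one_ne_zero⟩, fun I hI => ?_⟩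
  by_cases h : I = ⊥
  · exact Or.inl h
  · right
    obtain ⟨a, ha, ha0⟩ := (Submodule.ne_bot_iff I).1 h
    rw [eq_top_iff]
    intro b _
    have h2 := (hI a ha (a⁻¹ * b)).1
    change a * (a⁻¹ * b) ∈ I at h2
    rwa [← mul_assoc, mul_inv_cancel₀ ha0, one_mul] at h2

theorem bil_zero_left {U V W : Type u} [AddCommGroup U] [AddCommGroup V] [AddCommGroup W]
    [Module F U] [Module F V] [Module F W] {f : U → V → W} (h : IsBilinearMap F f) (v : V) :
    f 0 v = 0 := by
  have h1 := h.smul_left 0 0 v
  rwa [zero_smul, zero_smul] at h1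

theorem bil_zero_right {U V W : Type u} [AddCommGroup U] [AddCommGroup V] [AddCommGroup W]
    [Module F U] [Module F V] [Module F W] {f : U → V → W} (h : IsBilinearMap F f) (u : U) :
    f u 0 = 0 := by
  have h1 := h.smul_right 0 u 0
  rwa [zero_smul, zero_smul] at h1

theorem kan_assoc {V : Type u} [AddCommGroup V] [Module F V] {τ : V → V} {dl bl : A → V → V}
    {dr br : V → A → V} (h : IsDotBracketSupermodule F (fun a : A => a) (fun a b => a * b)
      (brD D) τ dl dr bl br) (a : A) (v : V × V) :
    kanLeft τ dl bl (a * a, 0) v = kanLeft τ dl bl (a, 0) (kanLeft τ dl bl (a, 0) v) := by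
  obtain ⟨⟨h1, h2, h3, _⟩, h4, _⟩ := h
  have hass : ∀ (a : A) (v : V), dl (a * a) v = dl a (dl a v) := by
    intro a v
    have h5 : dl (a * a) v + dr (dl a 0 + dr 0 a) 0 = dl a (dl a v + dr 0 0) + dr 0 (a * 0) :=
      congrArg Prod.snd (h4.assoc (a, 0) (a, 0) (0, v))
    simpa only [bil_zero_left h2, bil_zero_right h2, add_zero] using h5
  refine Prod.ext ?_ ?_
  · change dl (a * a) v.1 + bl 0 _ = dl a (dl a v.1 + bl 0 _) + bl 0 _
    rw [bil_zero_left h3, bil_zero_left h3, add_zero, add_zero, add_zero, hass]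
  · change dl (a * a) v.2 + dl 0 _ = dl a (dl a v.2 + dl 0 _) + dl 0 _
    rw [bil_zero_left h1, bil_zero_left h1, add_zero, add_zero, add_zero, hass]

/-- The counterexample over a given differential field. -/
theorem counterexample [NeZero (2 : F)] {K : Type u} [Field K] [Algebra F K]
    (D : Derivation F K K) {θ : Module.End F K} {t : K}
    (hθ : ∀ f, θ (t * f) = (t + 1) * θ f) (h1 : θ 1 ≠ 0) (hD : D t ≠ 0) :
    IsDotBracket F (fun a : K => a) (fun a b => a * b) (brD D) ∧
    IsJordanBracket F (fun a : K => a) (fun a b => a * b) (brD D) ∧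
    IsIdentity (fun a b : K => a * b) 1 ∧
    IsSimple F (fun a b : K => a * b) (brD D) ∧
    (∃ a b, brD D a b ≠ 0) ∧
    ∃ (M : Type u) (_ : AddCommGroup M) (_ : Module F M) (ρ : M → M) (l : K × K → M → M)
      (r : M → K × K → M),
      IsJordanSupermodule F (kanσ fun a : K => a) (kan (fun a => a) (fun a b => a * b) (brD D))
        ρ l r ∧
      (∀ m, l (1, 0) m = m ∧ r m (1, 0) = m) ∧ IsIrreducible F ρ l r ∧
      ∀ (V : Type u) (_ : AddCommGroup V) (_ : Module F V) (τ : V → V) (dl bl : K → V → V)
        (dr br' : V → K → V),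
        IsDotBracketSupermodule F (fun a : K => a) (fun a b => a * b) (brD D) τ dl dr bl br' →
        ∀ φ : M ≃ₗ[F] V × V, ∃ (a : K) (m : M),
          φ (l (a, 0) m) ≠ kanLeft τ dl bl (a, 0) (φ m) := by
  refine ⟨dotBracket D, jordan_J D, fun a => ⟨one_mul a, mul_one a⟩, simple_field _,
    ⟨t, 1, ?_⟩, ?_⟩
  · rw [brD, D.map_one_eq_zero, mul_zero, sub_zero, mul_one]
    exact hD
  · obtain ⟨M, i1, i2, ρ, l, r, hJ, hone, hirr, hna⟩ := exists_module D hθ h1
    refine ⟨M, i1, i2, ρ, l, r, hJ, hone, hirr, ?_⟩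
    intro V _ _ τ dl bl dr br' hV φ
    by_contra hcon
    push Not at hcon
    obtain ⟨m, hm⟩ := hirr.1
    apply hm
    apply hna
    apply φ.injective
    rw [hcon, hcon, hcon, kan_assoc hV]

end

end Q54.KD
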