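import Pool.Agent.Q54.KD.Transfer

/-!
# The Kantor double of a differential algebra with the bracket `{a, b} = D a b - a D b`, and its
# representation by two by two matrices of operators
-/

set_option autoImplicit false

universe u

namespace Q54.KD

section

variable {F : Type u} [Field F] {A : Type u} [CommRing A] [Algebra F A] (D : Derivation F A A)

/-- The bracket `{a, b} = D a b - a D b`. -/
def brD (a b : A) : A := D a * b - a * D b

/-- The product of the Kantor double. -/
def mulJ : A × A → A × A → A × A := kan (fun a => a) (fun a b => a * b) (brD D)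

omit [Field F] [Algebra F A] D in
/-- The parity automorphism of the Kantor double. -/
def sigJ (A : Type u) [CommRing A] : A × A → A × A := kanσ (fun a => a)

variable (F A) in
/-- The `2 × 2`-matrices of operators on `A`. -/
abbrev M2 : Type u := Matrix (Fin 2) (Fin 2) (Module.End F A)

variable (F A) in
/-- the operator of multiplication -/
abbrev Lm : A →ₐ[F] Module.End F A := Algebra.lmul F A

/-- the derivation -/
abbrev Dm : Module.End F A := D.toLinearMap

theorem Dm_mul (a : A) : Dm D * Lm F A a = Lm F A a * Dm D + Lm F A (D a) := by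
  apply LinearMap.ext
  intro b
  change D (a * b) = a * D b + D a * b
  rw [D.leibniz, smul_eq_mul, smul_eq_mul, mul_comm b]

variable (F A) in
/-- the even part of the representation -/
def P : A →ₗ[F] M2 F A where
  toFun a := !![Lm F A a, 0; 0, Lm F A a]
  map_add' a b := by
    ext i j
    fin_cases i <;> fin_cases j <;> simp
  map_smul' c a := by
    ext i j
    fin_cases i <;> fin_cases j <;> simp

/-- the odd part of the representation -/
def Q : A →ₗ[F] M2 F A where
  toFun a := !![0, (2 : F) • Lm F A a; -((2 : F) • (Lm F A a * Dm D) + Lm F A (D a)), 0]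
  map_add' a b := by
    ext1 i j
    fin_cases i <;> fin_cases j
    · simp
    · simp
    · simp only [map_add, add_mul, smul_add, Matrix.add_apply]
      simp
      abel
    · simp
  map_smul' c a := by
    ext1 i j
    fin_cases i <;> fin_cases j
    · simp
    · simp [smul_comm c (2 : F)]
    · simp only [map_smul, smul_mul_assoc, RingHom.id_apply, Matrix.smul_apply]
      simp [smul_comm c (2 : F)]
    · simp

omit D in
theorem P_mul (a b : A) : P F A (a * b) = P F A a * P F A b := by
  change !![Lm F A (a * b), 0; 0, Lm F A (a * b)] =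
    !![Lm F A a, 0; 0, Lm F A a] * !![Lm F A b, 0; 0, Lm F A b]
  rw [Matrix.mul_fin_two, map_mul]
  simp

omit D in
theorem P_one : P F A 1 = 1 := by
  change !![Lm F A 1, 0; 0, Lm F A 1] = 1
  rw [map_one, Matrix.one_fin_two]

omit D in
theorem Lm_comm (a b : A) : Lm F A a * Lm F A b = Lm F A b * Lm F A a := by
  rw [← map_mul, ← map_mul, mul_comm]

end

section

variable {B : Type u} [Ring B]

theorem entry1 (α β : B) (c1 : β * α = α * β) :
    (α * β + α * β) + (α * β + α * β) = α * (β + β) + (β + β) * α := by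
  rw [mul_add, add_mul, c1]

theorem entry2 (α β α' β' D : B) (h3 : β * D * α = α * β * D + α' * β)
    (c2 : β' * α = α * β') :
    -((α * β * D + α * β * D) + (α' * β + α * β')) +
      -((α * β * D + α * β * D) + (α' * β + α * β')) =
      α * (-((β * D + β * D) + β')) + (-((β * D + β * D) + β')) * α := by
  simp only [mul_add, add_mul, mul_neg, neg_mul, h3, c2, ← mul_assoc]
  abel

theorem entry3 (α β α' β' D : B) (c1 : β * α = α * β) (c3 : β * α' = α' * β) :
    (α' * β - α * β') + (α' * β - α * β') = (α + α) * (-((β * D + β * D) + β')) -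
      (β + β) * (-((α * D + α * D) + α')) := by
  simp only [mul_add, add_mul, mul_neg, ← mul_assoc, c1, c3]
  abel

theorem entry4 (α β α' β' D : B) (h3 : α * D * β = α * β * D + α * β')
    (h4 : β * D * α = α * β * D + α' * β) (c2 : β' * α = α * β') :
    (α' * β - α * β') + (α' * β - α * β') = (-((α * D + α * D) + α')) * (β + β) -
      (-((β * D + β * D) + β')) * (α + α) := by
  simp only [mul_add, add_mul, neg_mul, h3, h4, c2]
  abel

theorem kd1 : (!![1, 0; 0, -1] : Matrix (Fin 2) (Fin 2) B) * !![1, 0; 0, -1] =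
    1 := by
  rw [Matrix.mul_fin_two, Matrix.one_fin_two]
  simp

theorem kd2 (a : B) : (!![1, 0; 0, -1] : Matrix (Fin 2) (Fin 2) B) *
    !![a, 0; 0, a] = !![a, 0; 0, a] * !![1, 0; 0, -1] := by
  rw [Matrix.mul_fin_two, Matrix.mul_fin_two]
  simp

theorem kd3 (a b : B) : (!![1, 0; 0, -1] : Matrix (Fin 2) (Fin 2) B) *
    !![0, a; b, 0] = -(!![0, a; b, 0] * !![1, 0; 0, -1]) := by
  rw [Matrix.mul_fin_two, Matrix.mul_fin_two]
  ext1 i j
  fin_cases i <;> fin_cases j <;> simp

theorem comm_leibniz (p x y : B) :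
    p * (x * y) - x * y * p = (p * x - x * p) * y + x * (p * y - y * p) := by
  noncomm_ring

theorem comm_comm (p q : B) : p * (p * q - q * p) - (p * q - q * p) * p =
    (p * p * q + q * (p * p) + (p * p * q + q * (p * p))) -
      (p * (p * q + q * p) + (p * q + q * p) * p) := by
  noncomm_ring

theorem diag_mul (a b : B) : (!![a, 0; 0, a] : Matrix (Fin 2) (Fin 2) B) *
    !![b, 0; 0, b] - !![b, 0; 0, b] * !![a, 0; 0, a] + !![b, 0; 0, b] =
    !![a * b - b * a + b, 0; 0, a * b - b * a + b] := by
  rw [Matrix.mul_fin_two, Matrix.mul_fin_two]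
  ext1 i j
  fin_cases i <;> fin_cases j <;> simp

end

section

variable {F : Type u} [Field F] {A : Type u} [CommRing A] [Algebra F A] (D : Derivation F A A)

theorem P_mul_Q (a b : A) : (2 : F) • Q D (a * b) = P F A a * Q D b + Q D b * P F A a := by
  change (2 : F) • !![0, (2 : F) • Lm F A (a * b);
      -((2 : F) • (Lm F A (a * b) * Dm D) + Lm F A (D (a * b))), 0] =
    !![Lm F A a, 0; 0, Lm F A a] *
      !![0, (2 : F) • Lm F A b; -((2 : F) • (Lm F A b * Dm D) + Lm F A (D b)), 0] +
    !![0, (2 : F) • Lm F A b; -((2 : F) • (Lm F A b * Dm D) + Lm F A (D b)), 0] *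
      !![Lm F A a, 0; 0, Lm F A a]
  have h1 : Lm F A (D (a * b)) = Lm F A (D a) * Lm F A b + Lm F A a * Lm F A (D b) := by
    rw [D.leibniz, smul_eq_mul, smul_eq_mul, mul_comm b, map_add, map_mul, map_mul, add_comm]
  have h2 := Dm_mul D a
  have c1 := Lm_comm (F := F) b a
  have c2 := Lm_comm (F := F) (D b) a
  have c3 := Lm_comm (F := F) b (D a)
  have h3 : Lm F A b * Dm D * Lm F A a = Lm F A a * Lm F A b * Dm D + Lm F A (D a) * Lm F A b := by
    rw [mul_assoc, h2, mul_add, ← mul_assoc, c1, c3]
  have e1 := entry1 (Lm F A a) (Lm F A b) c1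
  have e2 := entry2 (Lm F A a) (Lm F A b) _ _ _ h3 c2
  rw [Matrix.mul_fin_two, Matrix.mul_fin_two, h1, map_mul]
  simp only [two_smul]
  ext1 i j
  fin_cases i <;> fin_cases j
  · simp
  · simpa using e1
  · simpa using e2
  · simp

theorem Q_mul_Q (a b : A) : (2 : F) • P F A (brD D a b) = Q D a * Q D b - Q D b * Q D a := by
  change (2 : F) • !![Lm F A (D a * b - a * D b), 0; 0, Lm F A (D a * b - a * D b)] =
    !![0, (2 : F) • Lm F A a; -((2 : F) • (Lm F A a * Dm D) + Lm F A (D a)), 0] *
      !![0, (2 : F) • Lm F A b; -((2 : F) • (Lm F A b * Dm D) + Lm F A (D b)), 0] -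
    !![0, (2 : F) • Lm F A b; -((2 : F) • (Lm F A b * Dm D) + Lm F A (D b)), 0] *
      !![0, (2 : F) • Lm F A a; -((2 : F) • (Lm F A a * Dm D) + Lm F A (D a)), 0]
  have h2 := Dm_mul D a
  have h2' := Dm_mul D b
  have c1 := Lm_comm (F := F) b a
  have c2 := Lm_comm (F := F) (D b) a
  have c3 := Lm_comm (F := F) b (D a)
  have h3 : Lm F A a * Dm D * Lm F A b = Lm F A a * Lm F A b * Dm D + Lm F A a * Lm F A (D b) := by
    rw [mul_assoc, h2', mul_add, ← mul_assoc]
  have h4 : Lm F A b * Dm D * Lm F A a = Lm F A a * Lm F A b * Dm D + Lm F A (D a) * Lm F A b := by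
    rw [mul_assoc, h2, mul_add, ← mul_assoc, c1, c3]
  have e3 := entry3 (Lm F A a) (Lm F A b) (Lm F A (D a)) (Lm F A (D b)) (Dm D) c1 c3
  have e4 := entry4 (Lm F A a) (Lm F A b) (Lm F A (D a)) (Lm F A (D b)) (Dm D) h3 h4 c2
  rw [Matrix.mul_fin_two, Matrix.mul_fin_two, map_sub, map_mul, map_mul]
  simp only [two_smul]
  ext1 i j
  fin_cases i <;> fin_cases j
  · simpa using e3
  · simp
  · simp
  · simpa using e4

variable (F A) in
/-- the matrix `diag(1, -1)` -/
def Kd : M2 F A := !![1, 0; 0, -1]

omit D in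
theorem Kd_mul_Kd : Kd F A * Kd F A = 1 := kd1

omit D in
theorem Kd_P (a : A) : Kd F A * P F A a = P F A a * Kd F A := kd2 _

theorem Kd_Q (a : A) : Kd F A * Q D a = -(Q D a * Kd F A) := kd3 _ _

end

end Q54.KD
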