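import Pool.Agent.Q54.KD.Stab
import Pool.Agent.Q54.KD.Abs

/-!
# An irreducible supermodule on which the action of the even part is not associative
-/

set_option autoImplicit false

universe u

namespace Q54.KD

section

variable {F : Type u} [Field F] {A : Type u} [CommRing A] [Algebra F A] {D : Derivation F A A}

theorem lop_one [NeZero (2 : F)] (m : M2 F A) : lop D (1, 0) m = m := by
  rw [lop_apply, toM_apply, map_zero, mul_zero, add_zero, add_zero, P_one, one_mul, mul_one,
    ← two_smul F m, smul_smul, inv_mul_cancel₀ (NeZero.ne _), one_smul]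

theorem rop_one [NeZero (2 : F)] (m : M2 F A) : rop D (1, 0) m = m := by
  rw [rop_apply, toM_apply, map_zero, zero_mul, add_zero, add_zero, P_one, one_mul, mul_one,
    ← two_smul F m, smul_smul, inv_mul_cancel₀ (NeZero.ne _), one_smul]

/-- left multiplications by the elements of `A` -/
theorem lop_left (a : A) (m : M2 F A) :
    lop D (a, 0) m = (2 : F)⁻¹ • (P F A a * m + m * P F A a) := by
  rw [lop_apply, toM_apply, map_zero, mul_zero, add_zero, add_zero]

theorem comm_sq {B : Type u} [Ring B] (p m : B) : (p * p * m + m * (p * p)) +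
    (p * p * m + m * (p * p)) - (p * (p * m + m * p) + (p * m + m * p) * p) =
    p * (p * m - m * p) - (p * m - m * p) * p := by
  noncomm_ring

/-- the defect of associativity -/
theorem defect [NeZero (2 : F)] (t : A) (m : M2 F A) :
    (4 : F) • (lop D (t * t, 0) m - lop D (t, 0) (lop D (t, 0) m)) = De F t (De F t m) := by
  have h2 : (2 : F) ≠ 0 := NeZero.ne _
  have h4 : (4 : F) * (2 : F)⁻¹ = 2 := by
    have : (4 : F) = 2 * 2 := by norm_num
    rw [this, mul_assoc, mul_inv_cancel₀ h2, mul_one]
  rw [lop_left, lop_left, lop_left, P_mul, mul_smul_comm, smul_mul_assoc, ← smul_add, smul_sub,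
    smul_smul, smul_smul, smul_smul, h4, mul_inv_cancel₀ h2, one_smul, two_smul]
  exact comm_sq (P F A t) m

theorem comm_aux {B : Type u} [Ring B] (p : B) : Commute (p - 1) (p + 1) := by
  change (p - 1) * (p + 1) = (p + 1) * (p - 1)
  noncomm_ring

/-- the defect of associativity as an operator -/
def dop {V : Type u} [AddCommGroup V] [Module F V] (x y : V →ₗ[F] V) : Module.End F V :=
  (4 : F) • (x - y.comp y) - 1

theorem dop_apply {V : Type u} [AddCommGroup V] [Module F V] (x y : V →ₗ[F] V) (v : V) :
    dop x y v = (4 : F) • (x v - y (y v)) - v := rfl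

theorem dop_pow [NeZero (2 : F)] (t : A) (K : ℕ) (m : M2 F A) (h : ((Dd F t) ^ K) m = 0) :
    ((dop (lop D (t * t, 0)) (lop D (t, 0))) ^ K) m = 0 := by
  have h1 : dop (lop D (t * t, 0)) (lop D (t, 0)) = (De F t - 1) * Dd F t := by
    apply LinearMap.ext
    intro m
    rw [dop_apply, defect, Module.End.mul_apply, Dd_apply, LinearMap.sub_apply,
      Module.End.one_apply, map_add]
    abel
  have h2 : Commute (De F (A := A) t - 1) (Dd F t) :=
    comm_aux (B := Module.End F (M2 F A)) (De F t)
  rw [h1, h2.mul_pow, Module.End.mul_apply, h, map_zero]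

theorem exists_module [NeZero (2 : F)] (D : Derivation F A A) {θ : Module.End F A} {t : A}
    (hθ : ∀ f, θ (t * f) = (t + 1) * θ f) (h1 : θ 1 ≠ 0) :
    ∃ (M : Type u) (_ : AddCommGroup M) (_ : Module F M) (ρ : M → M) (l : A × A → M → M)
      (r : M → A × A → M), IsJordanSupermodule F (sigJ A) (mulJ D) ρ l r ∧
      (∀ m, l (1, 0) m = m ∧ r m (1, 0) = m) ∧ IsIrreducible F ρ l r ∧
      ∀ m, l (t * t, 0) m = l (t, 0) (l (t, 0) m) → m = 0 := by
  let T : Option (Bool × (A × A)) → Module.End F (M2 F A) := fun i =>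
    match i with
    | none => sop F A
    | some (true, u) => lop D u
    | some (false, u) => rop D u
  obtain ⟨U, hU, M, i1, i2, T', π, hUN, hπ, hT, hne, hirr⟩ := exists_subquotient T (Mc F t) (by
    rintro (_ | ⟨_ | _, u⟩) x hx
    · exact Mc_sop t hx
    · exact Mc_rop t D u hx
    · exact Mc_lop t D u hx) (th θ) (th_mem t hθ) (th_ne h1)
  have hs : ∀ x : U, π ⟨sop F A x, hU none x x.2⟩ = T' none (π x) := hT none
  have hl : ∀ (u : A × A) (x : U), π ⟨lop D u x, hU (some (true, u)) x x.2⟩ =
    T' (some (true, u)) (π x) := fun u => hT (some (true, u))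
  have hr : ∀ (u : A × A) (x : U), π ⟨rop D u x, hU (some (false, u)) x x.2⟩ =
    T' (some (false, u)) (π x) := fun u => hT (some (false, u))
  have j1 : IsJordanSuperalgebra F (Prod.map (sigJ A)
      (fun x : U => (⟨sop F A x, hU none x x.2⟩ : U)))
      (nullMul (mulJ D) (fun u (x : U) => (⟨lop D u x, hU (some (true, u)) x x.2⟩ : U))
      (fun (x : U) u => (⟨rop D u x, hU (some (false, u)) x x.2⟩ : U))) := by
    refine pullback (F := F) (module_M2 D) (LinearMap.prodMap LinearMap.id U.subtype) ?_ ?_ ?_
    · intro u v h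
      exact Prod.ext (congrArg (fun x : (A × A) × M2 F A => x.1) h)
        (Subtype.ext (congrArg (fun x : (A × A) × M2 F A => x.2) h))
    · intro v
      rfl
    · intro a b
      rfl
  have j2 : IsJordanSuperalgebra F (Prod.map (sigJ A) (fun x => T' none x))
      (nullMul (mulJ D) (fun u x => T' (some (true, u)) x)
      (fun x u => T' (some (false, u)) x)) := by
    refine pushforward (F := F) j1 (LinearMap.prodMap LinearMap.id π) ?_ ?_ ?_
    · rintro ⟨u, v⟩
      obtain ⟨w, rfl⟩ := hπ v
      exact ⟨(u, w), rfl⟩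
    · intro v
      exact Prod.ext rfl (hs v.2)
    · intro a b
      refine Prod.ext rfl ?_
      change π (⟨lop D a.1 b.2, _⟩ + ⟨rop D b.1 a.2, _⟩) = _
      rw [map_add, hl, hr]
      rfl
  have j3 : IsBilinearMap F (fun (u : A × A) (x : M) => T' (some (true, u)) x) := by
    refine ⟨?_, ?_, ?_, ?_⟩
    · intro u v w
      obtain ⟨w, rfl⟩ := hπ w
      change T' (some (true, u + v)) (π w) = T' (some (true, u)) (π w) + T' (some (true, v)) (π w)
      rw [← hl, ← hl, ← hl, ← map_add]
      congr 1
      apply Subtype.ext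
      change lop D (u + v) w.1 = lop D u w.1 + lop D v w.1
      rw [map_add, LinearMap.add_apply]
    · intro c u w
      obtain ⟨w, rfl⟩ := hπ w
      change T' (some (true, c • u)) (π w) = c • T' (some (true, u)) (π w)
      rw [← hl, ← hl, ← map_smul]
      congr 1
      apply Subtype.ext
      change lop D (c • u) w.1 = c • lop D u w.1
      rw [map_smul, LinearMap.smul_apply]
    · intro u v w
      exact map_add _ _ _
    · intro c u w
      exact map_smul _ _ _
  have j4 : IsBilinearMap F (fun (x : M) (u : A × A) => T' (some (false, u)) x) := by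
    refine ⟨?_, ?_, ?_, ?_⟩
    · intro u v w
      exact map_add _ _ _
    · intro c u w
      exact map_smul _ _ _
    · intro w u v
      obtain ⟨w, rfl⟩ := hπ w
      change T' (some (false, u + v)) (π w) =
        T' (some (false, u)) (π w) + T' (some (false, v)) (π w)
      rw [← hr, ← hr, ← hr, ← map_add]
      congr 1
      apply Subtype.ext
      change rop D (u + v) w.1 = rop D u w.1 + rop D v w.1
      rw [map_add, LinearMap.add_apply]
    · intro c w u
      obtain ⟨w, rfl⟩ := hπ w
      change T' (some (false, c • u)) (π w) = c • T' (some (false, u)) (π w)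
      rw [← hr, ← hr, ← map_smul]
      congr 1
      apply Subtype.ext
      change rop D (c • u) w.1 = c • rop D u w.1
      rw [map_smul, LinearMap.smul_apply]
  refine ⟨M, i1, i2, _, _, _, ⟨j3, j4, j2⟩, ?_, ⟨hne, ?_⟩, ?_⟩
  · intro w
    obtain ⟨n, rfl⟩ := hπ w
    constructor
    · rw [← hl]
      congr 1
      exact Subtype.ext (lop_one n.1)
    · rw [← hr]
      congr 1
      exact Subtype.ext (rop_one n.1)
  · intro W hW
    apply hirr
    rintro (_ | ⟨_ | _, u⟩) x hx
    · exact (hW x hx).1
    · exact ((hW x hx).2 u).2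
    · exact ((hW x hx).2 u).1
  · intro w hw
    obtain ⟨n, rfl⟩ := hπ w
    obtain ⟨K, hK⟩ := hUN n.2
    have h3 := dop_pow (D := D) t K n.1 hK
    have h4 : ∀ x ∈ U, dop (lop D (t * t, 0)) (lop D (t, 0)) x ∈ U := by
      intro x hx
      rw [dop_apply]
      exact sub_mem (U.smul_mem _ (sub_mem (hU (some (true, _)) x hx)
        (hU (some (true, _)) _ (hU (some (true, _)) x hx)))) hx
    have h5 : ∀ x : U, π ⟨dop (lop D (t * t, 0)) (lop D (t, 0)) x, h4 x x.2⟩ =
        dop (T' (some (true, (t * t, 0)))) (T' (some (true, (t, 0)))) (π x) := by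
      intro x
      rw [dop_apply (T' (some (true, (t * t, 0)))), ← hl, ← hl, ← hl, ← map_sub, ← map_smul,
        ← map_sub]
      rfl
    have h6 : ∀ K : ℕ, ∀ x : U, ∃ h : ((dop (lop D (t * t, 0)) (lop D (t, 0))) ^ K) x ∈ U,
        π ⟨((dop (lop D (t * t, 0)) (lop D (t, 0))) ^ K) x, h⟩ =
        ((dop (T' (some (true, (t * t, 0)))) (T' (some (true, (t, 0))))) ^ K) (π x) := by
      intro K
      induction K with
      | zero =>
        intro x
        exact ⟨x.2, rfl⟩
      | succ K ih =>
        intro x
        obtain ⟨h, h'⟩ := ih ⟨_, h4 x x.2⟩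
        rw [h5] at h'
        simp only [pow_succ, Module.End.mul_apply]
        exact ⟨h, h'⟩
    have h7 : dop (T' (some (true, (t * t, 0)))) (T' (some (true, (t, 0)))) (π n) = -π n := by
      rw [dop_apply]
      change T' (some (true, (t * t, 0))) (π n) =
        T' (some (true, (t, 0))) (T' (some (true, (t, 0))) (π n)) at hw
      rw [hw, sub_self, smul_zero, zero_sub]
    have h8 : ∀ K : ℕ, ((dop (T' (some (true, (t * t, 0)))) (T' (some (true, (t, 0))))) ^ K) (π n) =
        (-1 : ℤ) ^ K • π n := by
      intro K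
      induction K with
      | zero => rw [pow_zero, pow_zero, one_smul, Module.End.one_apply]
      | succ K ih =>
        rw [pow_succ, Module.End.mul_apply, h7, map_neg, ih, pow_succ, mul_neg, mul_one, neg_smul]
    obtain ⟨h9, h10⟩ := h6 K n
    rw [h8] at h10
    have h11 : π ⟨((dop (lop D (t * t, 0)) (lop D (t, 0))) ^ K) n, h9⟩ = 0 := by
      rw [← map_zero π]
      congr 1
      exact Subtype.ext h3
    rw [h11] at h10
    rcases sign_or K with h | h
    · rw [h, one_smul] at h10
      exact h10.symm
    · rw [h, neg_smul, one_smul] at h10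
      exact neg_eq_zero.1 h10.symm

end

end Q54.KD
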