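import Pool.Agent.Q54.KD.Defs

/-!
# Associative superalgebras give Jordan superalgebras
-/

set_option autoImplicit false

universe u

namespace Q54.KD

section

variable {B : Type u} [Ring B]

/-- Twice the supersymmetrized product. -/
def S (e : ℤ) (x y : B) : B := x * y + e • (y * x)

set_option maxHeartbeats 8000000 in
theorem ring_identity (α β γ δ : B) (eij eik eil ejk ejl ekl : ℤ) (hij : eij = 1 ∨ eij = -1)
    (hik : eik = 1 ∨ eik = -1) (hil : eil = 1 ∨ eil = -1) (hjk : ejk = 1 ∨ ejk = -1)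
    (hjl : ejl = 1 ∨ ejl = -1) (hkl : ekl = 1 ∨ ekl = -1) :
    eik • (S (eik * eil * (ejk * ejl)) (S eij α β) (S ekl γ δ) -
      (eik * ejk) • S (eik * ejk * ekl) γ (S (eil * ejl) (S eij α β) δ)) +
    eij • (S (eij * ejl * (eik * ekl)) (S ejk β γ) (S eil α δ) -
      (eij * eik) • S (eij * eik * eil) α (S (ejl * ekl) (S ejk β γ) δ)) +
    ejk • (S (ejk * ekl * (eij * eil)) (S eik γ α) (S ejl β δ) -
      (ejk * eij) • S (ejk * eij * ejl) β (S (ekl * eil) (S eik γ α) δ)) = 0 := by
  rcases hij with rfl | rfl <;> rcases hik with rfl | rfl <;> rcases hil with rfl | rfl <;>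
  rcases hjk with rfl | rfl <;> rcases hjl with rfl | rfl <;> rcases hkl with rfl | rfl <;>
  · simp only [S, one_mul, mul_one, neg_mul, mul_neg, neg_neg, one_smul, neg_smul]
    noncomm_ring

end

end Q54.KD
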