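import Pool.Agent.Q54.KD.Sup

/-!
# A generalized eigenspace stable under all operators
-/

set_option autoImplicit false

universe u

namespace Q54.KD

section

variable {F : Type u} [Field F] {A : Type u} [CommRing A] [Algebra F A]

variable (F) in
/-- the commutator with `P t` -/
def De (t : A) : Module.End F (M2 F A) :=
  LinearMap.mulLeft F (P F A t) - LinearMap.mulRight F (P F A t)

variable (t : A)

theorem De_apply (m : M2 F A) : De F t m = P F A t * m - m * P F A t := rfl

theorem De_mul (x y : M2 F A) : De F t (x * y) = De F t x * y + x * De F t y :=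
  comm_leibniz (P F A t) x y

theorem De_P (a : A) : De F t (P F A a) = 0 := by
  rw [De_apply, ← P_mul, ← P_mul, mul_comm, sub_self]

theorem De_De_Q (D : Derivation F A A) (a : A) : De F t (De F t (Q D a)) = 0 := by
  have h1 := P_mul_Q D t a
  have h3 := P_mul_Q D t (t * a)
  have h4 := P_mul_Q D (t * t) a
  rw [mul_assoc, P_mul] at h4
  rw [h4] at h3
  have h5 : (2 : F) • (P F A t * P F A t * Q D a + Q D a * (P F A t * P F A t)) =
      P F A t * (P F A t * Q D a + Q D a * P F A t) +
        (P F A t * Q D a + Q D a * P F A t) * P F A t := by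
    rw [h3, smul_add, ← mul_smul_comm, ← smul_mul_assoc, h1]
  rw [two_smul] at h5
  rw [De_apply, De_apply]
  exact (comm_comm (P F A t) (Q D a)).trans (by rw [h5, sub_self])

variable (F) in
/-- the shifted commutator -/
def Dd : Module.End F (M2 F A) := De F t + 1

theorem Dd_apply (m : M2 F A) : Dd F t m = De F t m + m := rfl

variable (F) in
/-- a generalized eigenspace -/
def Mc : Submodule F (M2 F A) where
  carrier := {m | ∃ K, ((Dd F t) ^ K) m = 0}
  zero_mem' := ⟨0, by simp⟩
  add_mem' := by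
    rintro m n ⟨K, hK⟩ ⟨L, hL⟩
    refine ⟨K + L, ?_⟩
    rw [map_add, pow_add, Module.End.mul_apply, Module.End.mul_apply, hL, map_zero, add_zero,
      ← Module.End.mul_apply, ← pow_add, add_comm, pow_add, Module.End.mul_apply, hK, map_zero]
  smul_mem' := by
    rintro c m ⟨K, hK⟩
    exact ⟨K, by rw [map_smul, hK, smul_zero]⟩

theorem mem_Mc {m : M2 F A} : m ∈ Mc F t ↔ ∃ K, ((Dd F t) ^ K) m = 0 := Iff.rfl

theorem Mc_of_Dd {m : M2 F A} (h : Dd F t m ∈ Mc F t) : m ∈ Mc F t := by
  obtain ⟨K, hK⟩ := h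
  exact ⟨K + 1, by rw [pow_succ, Module.End.mul_apply, hK]⟩

theorem Mc_left (r : ℕ) :
    ∀ y : M2 F A, ((De F t) ^ r) y = 0 → ∀ m ∈ Mc F t, y * m ∈ Mc F t := by
  induction r with
  | zero =>
    intro y hy m _
    have h0 : y = 0 := hy
    rw [h0, zero_mul]
    exact zero_mem _
  | succ r ih =>
    intro y hy
    rw [pow_succ, Module.End.mul_apply] at hy
    have h1 := ih _ hy
    have h2 : ∀ K : ℕ, ∀ m, ((Dd F t) ^ K) m = 0 → y * m ∈ Mc F t := by
      intro K
      induction K with
      | zero =>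
        intro m hm
        have h0 : m = 0 := hm
        rw [h0, mul_zero]
        exact zero_mem _
      | succ K ihK =>
        intro m hm
        have h3 := hm
        rw [pow_succ, Module.End.mul_apply] at h3
        apply Mc_of_Dd
        have h4 : Dd F t (y * m) = De F t y * m + y * Dd F t m := by
          rw [Dd_apply, Dd_apply, De_mul, mul_add, add_assoc]
        rw [h4]
        exact add_mem (h1 m ⟨_, hm⟩) (ihK _ h3)
    rintro m ⟨K, hK⟩
    exact h2 K m hK

theorem Mc_right (r : ℕ) :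
    ∀ y : M2 F A, ((De F t) ^ r) y = 0 → ∀ m ∈ Mc F t, m * y ∈ Mc F t := by
  induction r with
  | zero =>
    intro y hy m _
    have h0 : y = 0 := hy
    rw [h0, mul_zero]
    exact zero_mem _
  | succ r ih =>
    intro y hy
    rw [pow_succ, Module.End.mul_apply] at hy
    have h1 := ih _ hy
    have h2 : ∀ K : ℕ, ∀ m, ((Dd F t) ^ K) m = 0 → m * y ∈ Mc F t := by
      intro K
      induction K with
      | zero =>
        intro m hm
        have h0 : m = 0 := hm
        rw [h0, zero_mul]
        exact zero_mem _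
      | succ K ihK =>
        intro m hm
        have h3 := hm
        rw [pow_succ, Module.End.mul_apply] at h3
        apply Mc_of_Dd
        have h4 : Dd F t (m * y) = m * De F t y + Dd F t m * y := by
          rw [Dd_apply, Dd_apply, De_mul, add_mul]
          abel
        rw [h4]
        exact add_mem (h1 m ⟨_, hm⟩) (ihK _ h3)
    rintro m ⟨K, hK⟩
    exact h2 K m hK

theorem De_pow_P (a : A) : ((De F t) ^ 1) (P F A a) = 0 := by
  rw [pow_one, De_P]

theorem De_pow_Q (D : Derivation F A A) (a : A) : ((De F t) ^ 2) (Q D a) = 0 := by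
  rw [pow_two, Module.End.mul_apply, De_De_Q]

theorem De_Kd : ((De F t) ^ 1) (Kd F A) = 0 := by
  rw [pow_one, De_apply, Kd_P, sub_self]

theorem Mc_sop {m : M2 F A} (hm : m ∈ Mc F t) : sop F A m ∈ Mc F t :=
  Mc_left t 1 _ (De_Kd t) _ (Mc_right t 1 _ (De_Kd t) _ hm)

theorem Mc_lop (D : Derivation F A A) {m : M2 F A} (u : A × A) (hm : m ∈ Mc F t) :
    lop D u m ∈ Mc F t := by
  rw [lop_apply, toM_apply, add_mul]
  exact Submodule.smul_mem _ _ (add_mem (add_mem (Mc_left t 1 _ (De_pow_P t _) _ hm)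
    (Mc_left t 2 _ (De_pow_Q t D _) _ hm)) (add_mem (Mc_right t 1 _ (De_pow_P t _) _ hm)
    (Mc_right t 2 _ (De_pow_Q t D _) _ (Mc_sop t hm))))

theorem Mc_rop (D : Derivation F A A) {m : M2 F A} (u : A × A) (hm : m ∈ Mc F t) :
    rop D u m ∈ Mc F t := by
  rw [rop_apply, toM_apply, mul_add]
  exact Submodule.smul_mem _ _ (add_mem (add_mem (Mc_right t 1 _ (De_pow_P t _) _ hm)
    (Mc_right t 2 _ (De_pow_Q t D _) _ hm)) (add_mem (Mc_left t 1 _ (De_pow_P t _) _ hm)
    (Mc_left t 2 _ (De_pow_Q t D _) _ (Mc_sop t hm))))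

/-- the translation as an element of the large module -/
def th (θ : Module.End F A) : M2 F A := !![θ, 0; 0, θ]

theorem th_ne {θ : Module.End F A} (hθ : θ 1 ≠ 0) : th θ ≠ 0 := by
  intro h
  have h1 : θ 1 = (0 : Module.End F A) 1 := by
    have h2 := congrFun (congrFun h 0) 0
    change θ = 0 at h2
    rw [h2]
  exact hθ h1

theorem L_th {θ : Module.End F A} (hθ : ∀ f, θ (t * f) = (t + 1) * θ f) :
    Lm F A t * θ - θ * Lm F A t + θ = 0 := by
  apply LinearMap.ext
  intro f
  change t * θ f - θ (t * f) + θ f = 0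
  rw [hθ]
  ring

theorem Dd_th {θ : Module.End F A} (hθ : ∀ f, θ (t * f) = (t + 1) * θ f) :
    Dd F t (th θ) = 0 := by
  rw [Dd_apply, De_apply]
  refine (diag_mul (Lm F A t) θ).trans ?_
  rw [L_th t hθ]
  ext1 i j
  fin_cases i <;> fin_cases j <;> rfl

theorem th_mem {θ : Module.End F A} (hθ : ∀ f, θ (t * f) = (t + 1) * θ f) : th θ ∈ Mc F t :=
  ⟨1, by rw [pow_one, Dd_th t hθ]⟩

end

end Q54.KD
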