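import Pool.Agent.Q54.KD.Model

/-!
# The Jordan bracket and the large supermodule
-/

set_option autoImplicit false

universe u

namespace Q54.KD

section

variable {F : Type u} [Field F] {A : Type u} [CommRing A] [Algebra F A] (D : Derivation F A A)

/-- the representation of the Kantor double -/
def toM : A × A →ₗ[F] M2 F A := (P F A).coprod (Q D)

theorem toM_apply (u : A × A) : toM D u = P F A u.1 + Q D u.2 := rfl

theorem toM_inj [NeZero (2 : F)] {u : A × A} (h : toM D u = 0) : u = 0 := by
  obtain ⟨a, x⟩ := u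
  have h1 : (Lm F A a) 1 = (0 : Module.End F A) 1 := by
    have h2 := congrFun (congrFun h 0) 0
    change Lm F A a + 0 = 0 at h2
    rw [add_zero] at h2
    rw [h2]
  have h3 : a * 1 = 0 := h1
  have h4 : ((2 : F) • Lm F A x) 1 = (0 : Module.End F A) 1 := by
    have h2 := congrFun (congrFun h 0) 1
    change 0 + (2 : F) • Lm F A x = 0 at h2
    rw [zero_add] at h2
    rw [h2]
  have h5 : (2 : F) • (x * 1) = 0 := h4
  rw [mul_one] at h3 h5
  rw [h3, (smul_eq_zero.1 h5).resolve_left (NeZero.ne _)]
  rfl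

variable {D}

variable (F) in
omit D in
theorem homog_one [NeZero (2 : F)] {i : ℕ} {u : A × A} (h : Homog (sigJ A) i u)
    (hi : (-1 : ℤ) ^ i = 1) : u.2 = 0 := by
  rw [Homog, hi, one_smul] at h
  have h1 : -u.2 = u.2 := congrArg Prod.snd h
  apply two_torsion (F := F)
  rw [two_smul]
  nth_rewrite 1 [← h1]
  rw [neg_add_cancel]

variable (F) in
omit D in
theorem homog_neg [NeZero (2 : F)] {i : ℕ} {u : A × A} (h : Homog (sigJ A) i u)
    (hi : (-1 : ℤ) ^ i = -1) : u.1 = 0 := by
  rw [Homog, hi, neg_smul, one_smul] at h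
  have h1 : u.1 = -u.1 := congrArg Prod.fst h
  apply two_torsion (F := F)
  rw [two_smul]
  nth_rewrite 1 [h1]
  rw [neg_add_cancel]

theorem mulJ_apply (u v : A × A) :
    mulJ D u v = (u.1 * v.1 + brD D u.2 v.2, u.1 * v.2 + u.2 * v.1) := rfl

theorem brD_zero_left (a : A) : brD D 0 a = 0 := by
  rw [brD, map_zero, zero_mul, zero_mul, sub_zero]

theorem brD_zero_right (a : A) : brD D a 0 = 0 := by
  rw [brD, map_zero, mul_zero, mul_zero, sub_zero]

theorem two_toM [NeZero (2 : F)] (i j : ℕ) (u v : A × A) (hu : Homog (sigJ A) i u)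
    (hv : Homog (sigJ A) j v) :
    (2 : ℤ) • toM D (mulJ D u v) = S ((-1) ^ (i * j)) (toM D u) (toM D v) := by
  have h2 : ∀ x : M2 F A, (2 : ℤ) • x = (2 : F) • x := by
    intro x
    rw [two_smul, two_smul]
  rw [h2, mulJ_apply, toM_apply, toM_apply, toM_apply, pow_mul]
  rcases sign_or i with hi | hi <;> rcases sign_or j with hj | hj
  · rw [homog_one F hu hi, homog_one F hv hj, brD_zero_left, hi, one_pow]
    simp only [S, map_zero, add_zero, mul_zero, zero_mul, one_smul, P_mul, two_smul]
    rw [← P_mul v.1 u.1, mul_comm v.1 u.1, P_mul]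
  · rw [homog_one F hu hi, homog_neg F hv hj, brD_zero_left, hi, one_pow]
    simp only [S, map_zero, add_zero, mul_zero, one_smul, zero_add]
    rw [P_mul_Q]
  · rw [homog_neg F hu hi, homog_one F hv hj, brD_zero_right, hi, hj]
    simp only [S, map_zero, add_zero, mul_zero, zero_mul, one_smul, zero_add]
    rw [mul_comm, P_mul_Q, add_comm]
  · rw [homog_neg F hu hi, homog_neg F hv hj, hi, hj]
    simp only [S, map_zero, add_zero, mul_zero, zero_mul, neg_smul, one_smul, zero_add]
    rw [Q_mul_Q, sub_eq_add_neg]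

theorem brD_bilinear : IsBilinearMap F (brD D) where
  add_left a b c := by
    simp only [brD, map_add]
    ring
  smul_left c a b := by
    simp only [brD, D.map_smul, smul_mul_assoc, smul_sub]
  add_right a b c := by
    simp only [brD, map_add]
    ring
  smul_right c a b := by
    simp only [brD, D.map_smul, mul_smul_comm, smul_sub]

theorem mulJ_bilinear : IsBilinearMap F (mulJ D) where
  add_left a b c := by
    simp only [mulJ_apply, Prod.fst_add, Prod.snd_add, brD_bilinear.add_left, Prod.mk_add_mk]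
    refine Prod.ext ?_ ?_
    · ring
    · ring
  smul_left c a b := by
    simp only [mulJ_apply, Prod.smul_fst, Prod.smul_snd, brD_bilinear.smul_left, Prod.smul_mk,
      smul_mul_assoc, smul_add]
  add_right a b c := by
    simp only [mulJ_apply, Prod.fst_add, Prod.snd_add, brD_bilinear.add_right, Prod.mk_add_mk]
    refine Prod.ext ?_ ?_
    · ring
    · ring
  smul_right c a b := by
    simp only [mulJ_apply, Prod.smul_fst, Prod.smul_snd, brD_bilinear.smul_right, Prod.smul_mk,
      mul_smul_comm, smul_add]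

omit D in
theorem sigJ_apply (u : A × A) : sigJ A u = (u.1, -u.2) := rfl

theorem brD_neg_neg (a b : A) : brD D (-a) (-b) = brD D a b := by
  simp only [brD, map_neg]
  ring

theorem sigJ_mulJ (u v : A × A) : sigJ A (mulJ D u v) = mulJ D (sigJ A u) (sigJ A v) := by
  simp only [mulJ_apply, sigJ_apply, brD_neg_neg]
  refine Prod.ext ?_ ?_
  · rfl
  · ring

variable (F A) in
omit D in
theorem superspace_sigJ : IsSuperspace F (sigJ A) where
  linear := ⟨fun u v => by simp only [sigJ_apply, Prod.fst_add, Prod.snd_add, Prod.mk_add_mk,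
    neg_add], fun c u => by simp only [sigJ_apply, Prod.smul_fst, Prod.smul_snd, Prod.smul_mk,
    smul_neg]⟩
  involutive u := by simp only [sigJ_apply, neg_neg]

variable (D) in
theorem jordan_J [NeZero (2 : F)] : IsJordanSuperalgebra F (sigJ A) (mulJ D) :=
  of_assoc (superspace_sigJ F A) mulJ_bilinear sigJ_mulJ (toM D).toAddMonoidHom
    (fun _ h => toM_inj D h) two_toM

variable (F A) in
omit D in
/-- conjugation by `Kd` -/
def sop : Module.End F (M2 F A) :=
  LinearMap.mulLeft F (Kd F A) * LinearMap.mulRight F (Kd F A)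

omit D in
theorem sop_apply (m : M2 F A) : sop F A m = Kd F A * (m * Kd F A) := rfl

omit D in
theorem sop_mul (m n : M2 F A) : sop F A (m * n) = sop F A m * sop F A n := by
  have h : Kd F A * (m * Kd F A) * (Kd F A * (n * Kd F A)) =
      Kd F A * (m * (Kd F A * Kd F A) * n * Kd F A) := by noncomm_ring
  rw [sop_apply, sop_apply, sop_apply, h, Kd_mul_Kd, mul_one]

omit D in
theorem sop_sop (m : M2 F A) : sop F A (sop F A m) = m := by
  have h : Kd F A * (Kd F A * (m * Kd F A) * Kd F A) =
      (Kd F A * Kd F A) * m * (Kd F A * Kd F A) := by noncomm_ring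
  rw [sop_apply, sop_apply, h, Kd_mul_Kd, one_mul, mul_one]

omit D in
theorem sop_P (a : A) : sop F A (P F A a) = P F A a := by
  rw [sop_apply, ← Kd_P, ← mul_assoc, Kd_mul_Kd, one_mul]

theorem sop_Q (a : A) : sop F A (Q D a) = -Q D a := by
  have h : Q D a * Kd F A = -(Kd F A * Q D a) := by rw [Kd_Q, neg_neg]
  rw [sop_apply, h]
  exact (mul_neg (Kd F A) (Kd F A * Q D a)).trans (by rw [← mul_assoc, Kd_mul_Kd, one_mul])

variable (D) in
/-- the left action -/
def lop : A × A →ₗ[F] M2 F A →ₗ[F] M2 F A :=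
  LinearMap.mk₂ F
    (fun u m => (2 : F)⁻¹ • (toM D u * m + (m * P F A u.1 + sop F A m * Q D u.2)))
    (fun u v m => by
      rw [← smul_add, Prod.fst_add, Prod.snd_add, map_add, map_add, map_add, add_mul, mul_add,
        mul_add]
      congr 1
      abel)
    (fun c u m => by
      rw [Prod.smul_fst, Prod.smul_snd, map_smul, map_smul, map_smul, smul_mul_assoc,
        mul_smul_comm, mul_smul_comm, ← smul_add, ← smul_add, smul_comm])
    (fun u m n => by
      rw [← smul_add, map_add, add_mul, mul_add, add_mul]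
      congr 1
      abel)
    (fun c u m => by
      rw [map_smul, smul_mul_assoc, mul_smul_comm, smul_mul_assoc, ← smul_add, ← smul_add,
        smul_comm])

variable (D) in
/-- the right action -/
def rop : A × A →ₗ[F] M2 F A →ₗ[F] M2 F A :=
  LinearMap.mk₂ F
    (fun u m => (2 : F)⁻¹ • (m * toM D u + (P F A u.1 * m + Q D u.2 * sop F A m)))
    (fun u v m => by
      rw [← smul_add, Prod.fst_add, Prod.snd_add, map_add, map_add, map_add, add_mul, mul_add,
        add_mul]
      congr 1
      abel)
    (fun c u m => by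
      rw [Prod.smul_fst, Prod.smul_snd, map_smul, map_smul, map_smul, smul_mul_assoc,
        mul_smul_comm, smul_mul_assoc, ← smul_add, ← smul_add, smul_comm])
    (fun u m n => by
      rw [← smul_add, map_add, add_mul, mul_add, mul_add]
      congr 1
      abel)
    (fun c u m => by
      rw [map_smul, smul_mul_assoc, mul_smul_comm, mul_smul_comm, ← smul_add, ← smul_add,
        smul_comm])

theorem lop_apply (u : A × A) (m : M2 F A) : lop D u m =
    (2 : F)⁻¹ • (toM D u * m + (m * P F A u.1 + sop F A m * Q D u.2)) := rfl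

theorem rop_apply (u : A × A) (m : M2 F A) : rop D u m =
    (2 : F)⁻¹ • (m * toM D u + (P F A u.1 * m + Q D u.2 * sop F A m)) := rfl

theorem two_lop [NeZero (2 : F)] (u : A × A) (m : M2 F A) : (2 : ℤ) • lop D u m =
    toM D u * m + (m * P F A u.1 + sop F A m * Q D u.2) := by
  have h2 : ∀ x : M2 F A, (2 : ℤ) • x = (2 : F) • x := by
    intro x
    rw [two_smul, two_smul]
  rw [h2, lop_apply, smul_smul, mul_inv_cancel₀ (NeZero.ne _), one_smul]

theorem two_rop [NeZero (2 : F)] (u : A × A) (m : M2 F A) : (2 : ℤ) • rop D u m =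
    m * toM D u + (P F A u.1 * m + Q D u.2 * sop F A m) := by
  have h2 : ∀ x : M2 F A, (2 : ℤ) • x = (2 : F) • x := by
    intro x
    rw [two_smul, two_smul]
  rw [h2, rop_apply, smul_smul, mul_inv_cancel₀ (NeZero.ne _), one_smul]

theorem two_lop' [NeZero (2 : F)] {i j : ℕ} {u : A × A} {m : M2 F A}
    (hu : Homog (sigJ A) i u) (hm : Homog (sop F A) j m) : (2 : ℤ) • lop D u m =
    toM D u * m + (-1 : ℤ) ^ (i * j) • (m * toM D u) := by
  rw [two_lop, toM_apply, pow_mul]
  rcases sign_or i with hi | hi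
  · rw [homog_one F hu hi, hi, one_pow, map_zero, mul_zero, add_zero, add_zero, one_smul]
  · rw [homog_neg F hu hi, hi, map_zero, mul_zero, zero_add, zero_add, hm, smul_mul_assoc]

theorem two_rop' [NeZero (2 : F)] {i j : ℕ} {u : A × A} {m : M2 F A}
    (hu : Homog (sigJ A) i u) (hm : Homog (sop F A) j m) : (2 : ℤ) • rop D u m =
    m * toM D u + (-1 : ℤ) ^ (i * j) • (toM D u * m) := by
  rw [two_rop, toM_apply, pow_mul]
  rcases sign_or i with hi | hi
  · rw [homog_one F hu hi, hi, one_pow, map_zero, zero_mul, add_zero, add_zero, one_smul]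
  · rw [homog_neg F hu hi, hi, map_zero, zero_mul, zero_add, zero_add, hm, mul_smul_comm]

theorem sop_lop (u : A × A) (m : M2 F A) :
    sop F A (lop D u m) = lop D (sigJ A u) (sop F A m) := by
  rw [lop_apply, lop_apply, map_smul, map_add, map_add, sop_mul, sop_mul, sop_mul, toM_apply,
    toM_apply, map_add, sop_P, sop_Q, sigJ_apply, map_neg]

theorem sop_rop (u : A × A) (m : M2 F A) :
    sop F A (rop D u m) = rop D (sigJ A u) (sop F A m) := by
  rw [rop_apply, rop_apply, map_smul, map_add, map_add, sop_mul, sop_mul, sop_mul, toM_apply,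
    toM_apply, map_add, sop_P, sop_Q, sigJ_apply, map_neg]

variable (D) in
/-- the embedding of the split null extension -/
def emb : (A × A) × M2 F A →+ TrivSqZeroExt (M2 F A) (M2 F A) :=
  AddMonoidHom.mk' (fun v => (toM D v.1, v.2)) (fun u v => by
    refine Prod.ext ?_ ?_
    · exact map_add (toM D) u.1 v.1
    · rfl)

theorem emb_fst (v : (A × A) × M2 F A) : (emb D v).fst = toM D v.1 := rfl

theorem emb_snd (v : (A × A) × M2 F A) : (emb D v).snd = v.2 := rfl

omit D in
theorem homog_prod {i : ℕ} {v : (A × A) × M2 F A}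
    (h : Homog (Prod.map (sigJ A) (sop F A)) i v) :
    Homog (sigJ A) i v.1 ∧ Homog (sop F A) i v.2 :=
  ⟨congrArg Prod.fst h, congrArg Prod.snd h⟩

variable (D) in
theorem module_M2 [NeZero (2 : F)] : IsJordanSuperalgebra F (Prod.map (sigJ A) (sop F A))
    (nullMul (mulJ D) (fun u m => lop D u m) (fun m u => rop D u m)) := by
  refine of_assoc (F := F) ⟨⟨?_, ?_⟩, ?_⟩ ⟨?_, ?_, ?_, ?_⟩ ?_ (emb D) ?_ ?_
  · intro u v
    exact Prod.ext ((superspace_sigJ F A).linear.map_add _ _) (map_add (sop F A) _ _)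
  · intro c v
    exact Prod.ext ((superspace_sigJ F A).linear.map_smul _ _) (map_smul (sop F A) _ _)
  · intro v
    exact Prod.ext ((superspace_sigJ F A).involutive _) (sop_sop _)
  · intro a b c
    refine Prod.ext (mulJ_bilinear.add_left _ _ _) ?_
    change lop D (a.1 + b.1) c.2 + rop D c.1 (a.2 + b.2) =
      lop D a.1 c.2 + rop D c.1 a.2 + (lop D b.1 c.2 + rop D c.1 b.2)
    rw [map_add, map_add, LinearMap.add_apply]
    abel
  · intro c a b
    refine Prod.ext (mulJ_bilinear.smul_left _ _ _) ?_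
    change lop D (c • a.1) b.2 + rop D b.1 (c • a.2) = c • (lop D a.1 b.2 + rop D b.1 a.2)
    rw [map_smul, map_smul, LinearMap.smul_apply, smul_add]
  · intro a b c
    refine Prod.ext (mulJ_bilinear.add_right _ _ _) ?_
    change lop D a.1 (b.2 + c.2) + rop D (b.1 + c.1) a.2 =
      lop D a.1 b.2 + rop D b.1 a.2 + (lop D a.1 c.2 + rop D c.1 a.2)
    rw [map_add, map_add, LinearMap.add_apply]
    abel
  · intro c a b
    refine Prod.ext (mulJ_bilinear.smul_right _ _ _) ?_
    change lop D a.1 (c • b.2) + rop D (c • b.1) a.2 = c • (lop D a.1 b.2 + rop D b.1 a.2)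
    rw [map_smul, map_smul, LinearMap.smul_apply, smul_add]
  · intro a b
    refine Prod.ext (sigJ_mulJ _ _) ?_
    change sop F A (lop D a.1 b.2 + rop D b.1 a.2) =
      lop D (sigJ A a.1) (sop F A b.2) + rop D (sigJ A b.1) (sop F A a.2)
    rw [map_add, sop_lop, sop_rop]
  · intro v hv
    have h1 : toM D v.1 = 0 := congrArg Prod.fst hv
    have h2 : v.2 = 0 := congrArg Prod.snd hv
    exact Prod.ext (toM_inj D h1) h2
  · intro i j a b ha hb
    obtain ⟨ha1, ha2⟩ := homog_prod ha
    obtain ⟨hb1, hb2⟩ := homog_prod hb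
    apply TrivSqZeroExt.ext
    · have h := two_toM (D := D) i j a.1 b.1 ha1 hb1
      rw [S] at h ⊢
      rw [TrivSqZeroExt.fst_add, TrivSqZeroExt.fst_smul, TrivSqZeroExt.fst_smul,
        TrivSqZeroExt.fst_mul, TrivSqZeroExt.fst_mul, emb_fst, emb_fst, emb_fst]
      exact h
    · have h1 := two_lop' (D := D) ha1 hb2
      have h2 := two_rop' (D := D) hb1 ha2
      rw [S]
      rw [TrivSqZeroExt.snd_add, TrivSqZeroExt.snd_smul, TrivSqZeroExt.snd_smul,
        TrivSqZeroExt.snd_mul, TrivSqZeroExt.snd_mul, emb_fst, emb_fst, emb_snd, emb_snd, emb_snd]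
      change (2 : ℤ) • (lop D a.1 b.2 + rop D b.1 a.2) = toM D a.1 * b.2 + a.2 * toM D b.1 +
        (-1 : ℤ) ^ (i * j) • (toM D b.1 * a.2 + b.2 * toM D a.1)
      rw [smul_add, h1, h2, mul_comm j i, smul_add]
      abel

end

end Q54.KD
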