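import Pool.Agent.Q54.KD.Ring

/-!
# Transfer of the Jordan property along homomorphisms
-/

set_option autoImplicit false

universe u

namespace Q54.KD

section

variable {F : Type u} [Field F] {V W : Type u} [AddCommGroup V] [Module F V] [AddCommGroup W]
  [Module F W]

omit [AddCommGroup V] in
theorem zsmul_left {U X : Type u} [AddCommGroup U] [AddCommGroup X] {m : U → V → X}
    (hm : ∀ a b c, m (a + b) c = m a c + m b c) (z : ℤ) (a : U) (b : V) :
    m (z • a) b = z • m a b :=
  map_zsmul (AddMonoidHom.mk' (fun a => m a b) fun a a' => hm a a' b) z a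

theorem zsmul_right {U X : Type u} [AddCommGroup U] [AddCommGroup X] {m : U → V → X}
    (hm : ∀ a b c, m a (b + c) = m a b + m a c) (z : ℤ) (a : U) (b : V) :
    m a (z • b) = z • m a b :=
  map_zsmul (AddMonoidHom.mk' (fun b => m a b) fun b b' => hm a b b') z b

theorem sign_or (n : ℕ) : (-1 : ℤ) ^ n = 1 ∨ (-1 : ℤ) ^ n = -1 :=
  neg_one_pow_eq_or ℤ n

theorem homog_mul {σ : V → V} {m : V → V → V} (hb : IsBilinearMap F m)
    (he : ∀ a b, σ (m a b) = m (σ a) (σ b)) {i j : ℕ} {a b : V} (ha : Homog σ i a)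
    (hb' : Homog σ j b) : Homog σ (i + j) (m a b) := by
  rw [Homog, he, ha, hb', zsmul_left hb.add_left, zsmul_right hb.add_right, smul_smul, pow_add]

theorem S_zsmul_left {B : Type u} [Ring B] (e z : ℤ) (x y : B) : S e (z • x) y = z • S e x y := by
  rw [S, S, smul_mul_assoc, mul_smul_comm, smul_comm e z, smul_add]

theorem S_zsmul_right {B : Type u} [Ring B] (e z : ℤ) (x y : B) : S e x (z • y) = z • S e x y := by
  rw [S, S, smul_mul_assoc, mul_smul_comm, smul_comm e z, smul_add]

theorem two_torsion [NeZero (2 : F)] {v : V} (h : (2 : ℤ) • v = 0) : v = 0 := by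
  have h1 : (2 : F) • v = 0 := by
    rw [← h, ← Int.cast_smul_eq_zsmul F (2 : ℤ) v]
    norm_num
  exact (smul_eq_zero.1 h1).resolve_left (NeZero.ne _)

/-- If `V` embeds in an associative superalgebra with the supersymmetrized product then `V` is a
Jordan superalgebra. -/
theorem of_assoc [NeZero (2 : F)] {σ : V → V} {m : V → V → V} (hσ : IsSuperspace F σ)
    (hb : IsBilinearMap F m) (he : ∀ a b, σ (m a b) = m (σ a) (σ b)) {B : Type u} [Ring B]
    (f : V →+ B) (hinj : ∀ v, f v = 0 → v = 0)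
    (hf : ∀ i j a b, Homog σ i a → Homog σ j b →
      (2 : ℤ) • f (m a b) = S ((-1) ^ (i * j)) (f a) (f b)) :
    IsJordanSuperalgebra F σ m where
  superspace := hσ
  bilinear := hb
  even := he
  supercomm := by
    intro i j a b ha hb'
    have h1 := hf i j a b ha hb'
    have h2 := hf j i b a hb' ha
    have h3 : (2 : ℤ) • (m a b - (-1 : ℤ) ^ (i * j) • m b a) = 0 := by
      apply hinj
      rw [map_zsmul, map_sub, map_zsmul, smul_sub, smul_comm, h1, h2, S, S, mul_comm j i]
      rcases sign_or (i * j) with h | h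
      · rw [h]; simp only [one_smul]; abel
      · rw [h]; simp only [neg_smul, one_smul]; abel
    exact sub_eq_zero.1 (two_torsion (F := F) h3)
  jordan := by
    intro i j k l a b c d ha hb' hc hd
    have hab := homog_mul hb he ha hb'
    have hbc := homog_mul hb he hb' hc
    have hca := homog_mul hb he hc ha
    have hcd := homog_mul hb he hc hd
    have had := homog_mul hb he ha hd
    have hbd := homog_mul hb he hb' hd
    have habd := homog_mul hb he hab hd
    have hbcd := homog_mul hb he hbc hd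
    have hcad := homog_mul hb he hca hd
    have key : ∀ (p q r s : ℕ) (x y z w : V), Homog σ p x → Homog σ q y → Homog σ r z →
        Homog σ s w → (8 : ℤ) • f (m (m x y) (m z w)) =
          S ((-1) ^ ((p + q) * (r + s))) (S ((-1) ^ (p * q)) (f x) (f y))
            (S ((-1) ^ (r * s)) (f z) (f w)) := by
      intro p q r s x y z w hx hy hz hw
      rw [← hf p q x y hx hy, ← hf r s z w hz hw, S_zsmul_left, S_zsmul_right,
        ← hf _ _ _ _ (homog_mul hb he hx hy) (homog_mul hb he hz hw), smul_smul, smul_smul]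
      norm_num
    have key2 : ∀ (p q r s : ℕ) (x y z w : V), Homog σ p x → Homog σ q y → Homog σ r z →
        Homog σ s w → (8 : ℤ) • f (m z (m (m x y) w)) =
          S ((-1) ^ (r * (p + q + s))) (f z) (S ((-1) ^ ((p + q) * s))
            (S ((-1) ^ (p * q)) (f x) (f y)) (f w)) := by
      intro p q r s x y z w hx hy hz hw
      have hxy := homog_mul hb he hx hy
      rw [← hf p q x y hx hy, S_zsmul_left, ← hf _ _ _ _ hxy hw, S_zsmul_right, S_zsmul_right,
        ← hf _ _ _ _ hz (homog_mul hb he hxy hw), smul_smul, smul_smul]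
      norm_num
    have h8 : ∀ v : V, (8 : ℤ) • v = 0 → v = 0 := by
      intro v hv
      apply two_torsion (F := F)
      apply two_torsion (F := F)
      apply two_torsion (F := F)
      rw [smul_smul, smul_smul]
      exact hv
    apply h8
    apply hinj
    have hid := ring_identity (f a) (f b) (f c) (f d) ((-1) ^ (i * j)) ((-1) ^ (i * k))
      ((-1) ^ (i * l)) ((-1) ^ (j * k)) ((-1) ^ (j * l)) ((-1) ^ (k * l)) (sign_or _) (sign_or _)
      (sign_or _) (sign_or _) (sign_or _) (sign_or _)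
    have hc8 : ∀ (z w : ℤ) (u v : B),
        (8 : ℤ) • (z • (u - w • v)) = z • ((8 : ℤ) • u - w • ((8 : ℤ) • v)) := by
      intro z w u v
      rw [smul_comm (8 : ℤ) z, smul_sub (8 : ℤ), smul_comm (8 : ℤ) w]
    rw [map_zsmul, map_add, map_add, map_zsmul, map_zsmul, map_zsmul, map_sub, map_sub, map_sub,
      map_zsmul, map_zsmul, map_zsmul, smul_add, smul_add, hc8, hc8, hc8,
      key i j k l a b c d ha hb' hc hd,
      key2 i j k l a b c d ha hb' hc hd, key j k i l b c a d hb' hc ha hd,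
      key2 j k i l b c a d hb' hc ha hd, key k i j l c a b d hc ha hb' hd,
      key2 k i j l c a b d hc ha hb' hd, ← hid]
    have e1 : (-1 : ℤ) ^ ((i + j) * (k + l)) = (-1) ^ (i * k) * (-1) ^ (i * l) *
        ((-1) ^ (j * k) * (-1) ^ (j * l)) := by
      rw [← pow_add, ← pow_add, ← pow_add]; congr 1; ring
    have e2 : (-1 : ℤ) ^ ((i + j) * k) = (-1) ^ (i * k) * (-1) ^ (j * k) := by
      rw [← pow_add]; congr 1; ring
    have e3 : (-1 : ℤ) ^ (k * (i + j + l)) = (-1) ^ (i * k) * (-1) ^ (j * k) * (-1) ^ (k * l) := by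
      rw [← pow_add, ← pow_add]; congr 1; ring
    have e4 : (-1 : ℤ) ^ ((i + j) * l) = (-1) ^ (i * l) * (-1) ^ (j * l) := by
      rw [← pow_add]; congr 1; ring
    have e5 : (-1 : ℤ) ^ ((j + k) * (i + l)) = (-1) ^ (i * j) * (-1) ^ (j * l) *
        ((-1) ^ (i * k) * (-1) ^ (k * l)) := by
      rw [← pow_add, ← pow_add, ← pow_add]; congr 1; ring
    have e6 : (-1 : ℤ) ^ ((j + k) * i) = (-1) ^ (i * j) * (-1) ^ (i * k) := by
      rw [← pow_add]; congr 1; ring
    have e7 : (-1 : ℤ) ^ (i * (j + k + l)) = (-1) ^ (i * j) * (-1) ^ (i * k) * (-1) ^ (i * l) := by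
      rw [← pow_add, ← pow_add]; congr 1; ring
    have e8 : (-1 : ℤ) ^ ((j + k) * l) = (-1) ^ (j * l) * (-1) ^ (k * l) := by
      rw [← pow_add]; congr 1; ring
    have e9 : (-1 : ℤ) ^ ((k + i) * (j + l)) = (-1) ^ (j * k) * (-1) ^ (k * l) *
        ((-1) ^ (i * j) * (-1) ^ (i * l)) := by
      rw [← pow_add, ← pow_add, ← pow_add]; congr 1; ring
    have e10 : (-1 : ℤ) ^ ((k + i) * j) = (-1) ^ (j * k) * (-1) ^ (i * j) := by
      rw [← pow_add]; congr 1; ring
    have e11 : (-1 : ℤ) ^ (j * (k + i + l)) = (-1) ^ (j * k) * (-1) ^ (i * j) * (-1) ^ (j * l) := by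
      rw [← pow_add, ← pow_add]; congr 1; ring
    have e12 : (-1 : ℤ) ^ ((k + i) * l) = (-1) ^ (k * l) * (-1) ^ (i * l) := by
      rw [← pow_add]; congr 1; ring
    rw [e1, e2, e3, e4, e5, e6, e7, e8, e9, e10, e11, e12, mul_comm j i, mul_comm k j,
      mul_comm k i]
  jordan_even := by
    intro l a d ha hd
    have haa : Homog σ 0 (m a a) := homog_mul hb he ha ha
    have had : Homog σ l (m a d) := by
      have h := homog_mul hb he ha hd
      rwa [zero_add] at h
    have haad : Homog σ l (m (m a a) d) := by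
      have h := homog_mul hb he haa hd
      rwa [zero_add] at h
    have h1 : ∀ (l : ℕ) (x y : V), Homog σ 0 x → Homog σ l y →
        (2 : ℤ) • f (m x y) = S 1 (f x) (f y) := by
      intro l x y hx hy
      have h := hf 0 l x y hx hy
      rwa [zero_mul, pow_zero] at h
    have h8 : ∀ v : V, (8 : ℤ) • v = 0 → v = 0 := by
      intro v hv
      apply two_torsion (F := F)
      apply two_torsion (F := F)
      apply two_torsion (F := F)
      rw [smul_smul, smul_smul]
      exact hv
    rw [← sub_eq_zero]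
    apply h8
    apply hinj
    have h2 : (8 : ℤ) • f (m (m a a) (m a d)) = S 1 (S 1 (f a) (f a)) (S 1 (f a) (f d)) := by
      rw [← h1 0 a a ha ha, ← h1 l a d ha hd, S_zsmul_left, S_zsmul_right,
        ← h1 l _ _ haa had, smul_smul, smul_smul]
      norm_num
    have h3 : (8 : ℤ) • f (m a (m (m a a) d)) = S 1 (f a) (S 1 (S 1 (f a) (f a)) (f d)) := by
      rw [← h1 0 a a ha ha, S_zsmul_left, ← h1 l _ _ haa hd, S_zsmul_right, S_zsmul_right,
        ← h1 l _ _ ha haad, smul_smul, smul_smul]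
      norm_num
    rw [map_zsmul, map_sub, smul_sub, h2, h3]
    simp only [S, one_smul]
    noncomm_ring

theorem pullback {σ : V → V} {m : V → V → V} {τ : W → W} {n : W → W → W}
    (hW : IsJordanSuperalgebra F τ n) (f : V →ₗ[F] W) (hinj : Function.Injective f)
    (hσ : ∀ v, f (σ v) = τ (f v)) (hm : ∀ a b, f (m a b) = n (f a) (f b)) :
    IsJordanSuperalgebra F σ m := by
  have hom : ∀ i v, Homog σ i v → Homog τ i (f v) := by
    intro i v hv
    rw [Homog, ← hσ, hv, map_zsmul]
  refine ⟨⟨⟨?_, ?_⟩, ?_⟩, ⟨?_, ?_, ?_, ?_⟩, ?_, ?_, ?_, ?_⟩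
  · intro u v
    apply hinj
    rw [hσ, map_add, map_add, hσ, hσ, hW.superspace.linear.map_add]
  · intro c v
    apply hinj
    rw [hσ, map_smul, map_smul, hσ, hW.superspace.linear.map_smul]
  · intro v
    apply hinj
    rw [hσ, hσ, hW.superspace.involutive]
  · intro a b c
    apply hinj
    rw [hm, map_add, map_add, hW.bilinear.add_left, hm, hm]
  · intro c a b
    apply hinj
    rw [hm, map_smul, map_smul, hW.bilinear.smul_left, hm]
  · intro a b c
    apply hinj
    rw [hm, map_add, map_add, hW.bilinear.add_right, hm, hm]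
  · intro c a b
    apply hinj
    rw [hm, map_smul, map_smul, hW.bilinear.smul_right, hm]
  · intro a b
    apply hinj
    rw [hσ, hm, hm, hW.even, hσ, hσ]
  · intro i j a b ha hb
    apply hinj
    rw [hm, map_zsmul, hm]
    exact hW.supercomm i j _ _ (hom i a ha) (hom j b hb)
  · intro i j k l a b c d ha hb hc hd
    apply hinj
    have h := hW.jordan i j k l _ _ _ _ (hom i a ha) (hom j b hb) (hom k c hc) (hom l d hd)
    rw [map_zero, ← h]
    simp only [map_add, map_sub, map_zsmul, hm]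
  · intro l a d ha hd
    apply hinj
    simp only [hm]
    exact hW.jordan_even l _ _ (hom 0 a ha) (hom l d hd)

theorem pushforward [NeZero (2 : F)] {σ : V → V} {m : V → V → V} {τ : W → W} {n : W → W → W}
    (hV : IsJordanSuperalgebra F σ m) (f : V →ₗ[F] W) (hsurj : Function.Surjective f)
    (hσ : ∀ v, f (σ v) = τ (f v)) (hm : ∀ a b, f (m a b) = n (f a) (f b)) :
    IsJordanSuperalgebra F τ n := by
  have hom : ∀ i w, Homog τ i w → ∃ v, Homog σ i v ∧ f v = w := by
    intro i w hw
    obtain ⟨u, rfl⟩ := hsurj w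
    refine ⟨(2 : F)⁻¹ • (u + (-1 : ℤ) ^ i • σ u), ?_, ?_⟩
    · have h1 : σ ((-1 : ℤ) ^ i • σ u) = (-1 : ℤ) ^ i • u := by
        rw [← Int.cast_smul_eq_zsmul F, hV.superspace.linear.map_smul, hV.superspace.involutive,
          Int.cast_smul_eq_zsmul]
      have h2 : (-1 : ℤ) ^ i • ((-1 : ℤ) ^ i • σ u) = σ u := by
        rw [smul_smul, ← pow_add, ← two_mul, pow_mul]
        norm_num
      rw [Homog, hV.superspace.linear.map_smul, hV.superspace.linear.map_add, h1,
        smul_comm ((-1 : ℤ) ^ i) (2 : F)⁻¹, smul_add ((-1 : ℤ) ^ i), h2, add_comm]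
    · rw [map_smul, map_add, map_zsmul, hσ, hw, smul_smul, ← pow_add, ← two_mul, pow_mul]
      simp only [even_two, Even.neg_pow, one_pow, one_smul]
      rw [← two_smul F (f u), smul_smul, inv_mul_cancel₀ (NeZero.ne _), one_smul]
  refine ⟨⟨⟨?_, ?_⟩, ?_⟩, ⟨?_, ?_, ?_, ?_⟩, ?_, ?_, ?_, ?_⟩
  · intro u v
    obtain ⟨u, rfl⟩ := hsurj u
    obtain ⟨v, rfl⟩ := hsurj v
    rw [← map_add, ← hσ, hV.superspace.linear.map_add, map_add, hσ, hσ]
  · intro c v
    obtain ⟨v, rfl⟩ := hsurj v
    rw [← map_smul, ← hσ, hV.superspace.linear.map_smul, map_smul, hσ]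
  · intro v
    obtain ⟨v, rfl⟩ := hsurj v
    rw [← hσ, ← hσ, hV.superspace.involutive]
  · intro a b c
    obtain ⟨a, rfl⟩ := hsurj a
    obtain ⟨b, rfl⟩ := hsurj b
    obtain ⟨c, rfl⟩ := hsurj c
    rw [← map_add, ← hm, hV.bilinear.add_left, map_add, hm, hm]
  · intro c a b
    obtain ⟨a, rfl⟩ := hsurj a
    obtain ⟨b, rfl⟩ := hsurj b
    rw [← map_smul, ← hm, hV.bilinear.smul_left, map_smul, hm]
  · intro a b c
    obtain ⟨a, rfl⟩ := hsurj a
    obtain ⟨b, rfl⟩ := hsurj b
    obtain ⟨c, rfl⟩ := hsurj c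
    rw [← map_add, ← hm, hV.bilinear.add_right, map_add, hm, hm]
  · intro c a b
    obtain ⟨a, rfl⟩ := hsurj a
    obtain ⟨b, rfl⟩ := hsurj b
    rw [← map_smul, ← hm, hV.bilinear.smul_right, map_smul, hm]
  · intro a b
    obtain ⟨a, rfl⟩ := hsurj a
    obtain ⟨b, rfl⟩ := hsurj b
    rw [← hm, ← hσ, hV.even, hm, hσ, hσ]
  · intro i j a b ha hb
    obtain ⟨a, ha', rfl⟩ := hom i a ha
    obtain ⟨b, hb', rfl⟩ := hom j b hb
    rw [← hm, ← hm, hV.supercomm i j a b ha' hb', map_zsmul]
  · intro i j k l a b c d ha hb hc hd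
    obtain ⟨a, ha', rfl⟩ := hom i a ha
    obtain ⟨b, hb', rfl⟩ := hom j b hb
    obtain ⟨c, hc', rfl⟩ := hom k c hc
    obtain ⟨d, hd', rfl⟩ := hom l d hd
    have h := congrArg f (hV.jordan i j k l a b c d ha' hb' hc' hd')
    rw [map_zero] at h
    rw [← h]
    simp only [map_add, map_sub, map_zsmul, hm]
  · intro l a d ha hd
    obtain ⟨a, ha', rfl⟩ := hom 0 a ha
    obtain ⟨d, hd', rfl⟩ := hom l d hd
    have h := congrArg f (hV.jordan_even l a d ha' hd')
    simpa only [hm] using h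

end

end Q54.KD
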